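import Mathlib
import Pool.Agent.Helper61.DH.Main

/-!
# Exact dynamical Mordell-Lang for all curves and all points, for generic polynomial maps over `ℂ`

Let `Φ` be a polynomial self-map of `A^N` over `ℂ`, given by polynomials of degree at most `d ≥ 2` whose
homogeneous parts of degree `d` have no common nontrivial zero, so that `Φ` extends to an endomorphism
of `P^N` of degree `d`. Let `F` be the self-map of `A^N` given by the forms of degree `d`; it induces
the map of `Φ` on the hyperplane at infinity `H = P^(N-1)`. The local degree of `F^k : H → H` at the
point represented by `z ≠ 0` is the multiplicity of the solution `Y = z` of `F^k (Y) = F^k (z)`.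

(A) Assume that for some `k > 0` the local degree of `F^k` is less than `d^k` at all points of `H`. Then
for ALL points `α` of `A^N` over `ℂ` and ALL closed sets `V` of `A^N` over `ℂ` of dimension at most one
the return set `{n | Φ^n (α) ∈ V}` is a finite union of arithmetic progressions.

(B) The hypotheses hold for generic `Φ`: for all `N` and `d` there is a nonzero polynomial `Ψ` with
integral coefficients in the coefficients of the forms of degree `d` such that `Φ` satisfies them
whenever `Ψ (Φ) ≠ 0`. There is no condition on the terms of lower degree, on the ramification of `Φ`,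
on the field of definition of `Φ`, `α`, `V`.

For `N = 2` the condition says that `F : P^1 → P^1` has no cycle of totally ramified points, in other
words that `F^2` is not conjugate to a polynomial.

## Sketch of the proof

(1) The theorem over number fields (`Helper52/RP`, `Helper26/RC`, `Helper61/DC`). Let `Φ`, `α`, `V` be
over a number field `K`, the return set infinite. The closures of the backward translates of the
returning sequence along a nonprincipal ultrafilter are curves `C_l` with `Φ (C_(l+1)) ⊆ C_l`; by the
subspace theorem the sequence tends at some place to points `q_l` at infinity with at most two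
conjugates over `K`, and by Northcott they are periodic; the homogenised iterate has a superattracting
fixed point at `q_0`; the colength of the pullbacks of its ideal is small because the local degree is
less than `d^k`, so Siegel's lemma in the form of linear algebra and the product formula give a closed
set of dimension one which contains all `C_l` with `l` large; two of them are equal and `V` contains
a periodic curve.

(2) A nonpreperiodic orbit has a nonpreperiodic specialisation (`Helper61/DH/LemB`). Let `A` be a
finitely generated domain over `ℚ` which contains the coefficients, `g ≠ 0` in `A`. There is a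
homomorphism `φ` of `A` to the algebraic numbers with `φ (g) ≠ 0` such that `φ (α)` is not preperiodic.
For let `A` be integral over `ℚ[s_1, .., s_r]`. If `φ (α)` is preperiodic then the orbit is bounded by
the escape radius, a power of the size of `s_0 = φ (s)`; the coefficients of regularity at infinity are
controlled by a Nullstellensatz certificate over `A`. If this happens for all `φ` with `φ (g) ≠ 0` then
the norm of a difference `z` of two coordinates of the orbit has bounded degree, so it is determined by
its values at finitely many points `s_0`, and over each point there are finitely many `φ`: the orbit is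
determined by finitely many finite orbits and it is finite.

(3) A plane model of the curve remains irreducible (`Helper61/DH/Norm`, `Dim`, `Irr`): there is no
factorisation into polynomials of smaller degree, and this has a Nullstellensatz certificate.

(4) End of the proof over `ℂ` (`Helper61/DH/Step`, `Spec`, `Main`). Let `P` be the prime ideal of the
closure of the returning sequence along an ultrafilter, `n`, `n + g` two return times. Suppose that `f`
in `P`, but not `f ∘ Φ^g`. Specialise as in (2): the closure of the specialised sequence is a curve,
periodic by (1). By (3) it contains the specialised points of the times `n`, `n + g` and `m`, and it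
is stable under `Φ^g`, since it contains infinitely many points `x` together with `Φ^g (x)`. So the
specialisation of `f ∘ Φ^g` vanishes at the time `m`, where `f ∘ Φ^g` does not: contradiction. Hence
the curve is stable under `Φ^g`.

(5) Generic maps (`Helper61/DG`). Multiplicities are submultiplicative for compositions, and the
multiplicity of `G` at `z` is less than `s` if and only if a minor of a matrix is not zero whose entries
are polynomials in `z` and in the coefficients of `G`. By elimination it suffices to find one map; the
example is `F_j = (x_1 - c x_(j+1))^d` for `j < N`, `F_N = x_1^d`, `(1 - c)^d = 1`, `c ≠ 0`: along an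
orbit the number of zero coordinates, summed over time, is bounded, since the set of the values of the
coordinates loses an element at each return, so the local degrees of ALL iterates are bounded by one
constant.
-/

namespace Pool.Agent.Results.MP_295d38_ag.CurvesOffFiniteSet

open MvPolynomial

variable {N : ℕ}

/-- The maximal ideal of the point `z` of `A^N`. -/
noncomputable def pointIdeal (z : Fin N → ℂ) : Ideal (MvPolynomial (Fin N) ℂ) :=
  RingHom.ker (eval z)

instance (z : Fin N → ℂ) : (pointIdeal z).IsPrime := RingHom.ker_isPrime _

/-- The multiplicity of the solution `Y = z` of the system of equations `G i (Y) = G i (z)`: the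
dimension over `ℂ` of the quotient of the local ring of `A^N` at `z` by the ideal generated by the
`G i (Y) - G i (z)`. -/
noncomputable def localMult (G : Fin N → MvPolynomial (Fin N) ℂ) (z : Fin N → ℂ) : Cardinal :=
  Module.rank ℂ (Localization.AtPrime (pointIdeal z) ⧸
    (Ideal.span (Set.range fun i => G i - C (eval z (G i)))).map
      (algebraMap (MvPolynomial (Fin N) ℂ) (Localization.AtPrime (pointIdeal z))))

/-- The polynomial self-map of affine space with the coordinates `Φ i`. -/
noncomputable def polyMap (Φ : Fin N → MvPolynomial (Fin N) ℂ) (x : Fin N → ℂ) : Fin N → ℂ :=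
  fun i => eval x (Φ i)

/-- The homogeneous part of degree `d` of `Φ i`. -/
noncomputable def topForm (d : ℕ) (Φ : Fin N → MvPolynomial (Fin N) ℂ) (i : Fin N) :
    MvPolynomial (Fin N) ℂ :=
  homogeneousComponent d (Φ i)

/-- The coordinate `i` of the `k`-th iterate of the self-map of `A^N` given by the forms of degree
`d`: a form of degree `d ^ k`. -/
noncomputable def topIter (d : ℕ) (Φ : Fin N → MvPolynomial (Fin N) ℂ) (k : ℕ) (i : Fin N) :
    MvPolynomial (Fin N) ℂ :=
  (bind₁ (topForm d Φ))^[k] (X i)

/-- `Φ` has degree at most `d`, and the homogeneous parts of degree `d` of the `Φ i` have no common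
nontrivial zero: `Φ` extends to an endomorphism of degree `d` of projective space. -/
def RegularAtInfinity (d : ℕ) (Φ : Fin N → MvPolynomial (Fin N) ℂ) : Prop :=
  (∀ i, (Φ i).totalDegree ≤ d) ∧ ∀ z : Fin N → ℂ, (∀ i, eval z (topForm d Φ i) = 0) → z = 0

/-- For some `k > 0` the local degree of the `k`-th iterate of the map at infinity is less than `d ^ k`
at all points of the hyperplane at infinity (represented by vectors `z ≠ 0`). -/
def SmallLocalDegrees (d : ℕ) (Φ : Fin N → MvPolynomial (Fin N) ℂ) : Prop :=
  ∃ k, 0 < k ∧ ∀ z : Fin N → ℂ, z ≠ 0 → localMult (topIter d Φ k) z < ((d ^ k : ℕ) : Cardinal)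

/-- The set of return times of the orbit of `α` to the zero set of the ideal `I` in `A^N`. -/
def returnSet (Φ : Fin N → MvPolynomial (Fin N) ℂ) (α : Fin N → ℂ)
    (I : Ideal (MvPolynomial (Fin N) ℂ)) : Set ℕ :=
  {n | ∀ f ∈ I, eval ((polyMap Φ)^[n] α) f = 0}

/-- The zero set of `I` has dimension at most one: the coordinate rings of its irreducible closed
subsets have transcendence degree at most one over `ℂ`. -/
def DimLEOne (I : Ideal (MvPolynomial (Fin N) ℂ)) : Prop :=
  ∀ P : Ideal (MvPolynomial (Fin N) ℂ), P.IsPrime → I ≤ P →
    Algebra.trdeg ℂ (MvPolynomial (Fin N) ℂ ⧸ P) ≤ 1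

/-- The indices of the coefficients of the forms of degree `d`: `(i, s)` is the index of the
coefficient of the monomial with the exponents `s` in the coordinate `i`. -/
abbrev TopCoeff (N d : ℕ) : Type := Fin N × {s : Fin N →₀ ℕ // s.degree = d}

/-- The set is a finite union of arithmetic progressions. -/
def IsFiniteUnion (R : Set ℕ) : Prop :=
  ∃ A : Finset (ℕ × ℕ), R = {n | ∃ p ∈ A, ∃ k : ℕ, n = p.1 + p.2 * k}

/-- For each `N` and `d ≥ 2` there is a nonzero polynomial `Ψ` over `ℤ` in the coefficients of the forms
of degree `d` such that for all polynomial self-maps `Φ` of `A^N` over `ℂ` of degree at most `d`: if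
`Ψ (Φ) ≠ 0` then `Φ` is regular at infinity and its map at infinity has small local degrees; and if `Φ`
is regular at infinity and its map at infinity has small local degrees then for all `α` over `ℂ` and
all closed `V` over `ℂ` of dimension at most one the return set is a finite union of arithmetic
progressions. -/
theorem result (N : ℕ) {d : ℕ} (hd : 2 ≤ d) :
    ∃ Ψ : MvPolynomial (TopCoeff N d) ℤ, Ψ ≠ 0 ∧
      ∀ Φ : Fin N → MvPolynomial (Fin N) ℂ, (∀ i, (Φ i).totalDegree ≤ d) →
        (aeval (fun t : TopCoeff N d => coeff t.2.1 (Φ t.1)) Ψ ≠ 0 →
          RegularAtInfinity d Φ ∧ SmallLocalDegrees d Φ) ∧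
        (RegularAtInfinity d Φ → SmallLocalDegrees d Φ →
          ∀ (α : Fin N → ℂ) (I : Ideal (MvPolynomial (Fin N) ℂ)), DimLEOne I →
            IsFiniteUnion (returnSet Φ α I)) := by
  obtain ⟨Ψ, hΨ, h⟩ := Pool.Agent.Helper61.DH.generic_criterion N hd
  have htop : ∀ Φ : Fin N → MvPolynomial (Fin N) ℂ, topForm d Φ = Pool.Agent.Helper61.DC.tf ℂ d Φ := by
    intro Φ
    funext i
    unfold topForm Pool.Agent.Helper61.DC.tf
    have h1 : MvPolynomial.map (algebraMap ℂ ℂ) (Φ i) = Φ i := MvPolynomial.map_id _
    rw [h1]
  have hmult : ∀ (Φ : Fin N → MvPolynomial (Fin N) ℂ) (k : ℕ) (z : Fin N → ℂ),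
      localMult (topIter d Φ k) z = Pool.Agent.Helper52.RP.mult z
        (Ideal.span (Set.range fun i => (bind₁ (Pool.Agent.Helper61.DC.tf ℂ d Φ))^[k] (X i) -
          C (eval z ((bind₁ (Pool.Agent.Helper61.DC.tf ℂ d Φ))^[k] (X i))))) := by
    intro Φ k z
    rw [← htop]
    rfl
  refine ⟨Ψ, hΨ, fun Φ hdeg => ⟨fun hΦ => ?_, fun hreg hsmall α I hI => ?_⟩⟩
  · obtain ⟨hreg, k, hk, hz⟩ := h Φ hdeg hΦ
    exact ⟨⟨hdeg, fun z hz => hreg.2 z (funext hz)⟩, k, hk, fun z hz0 => by
      rw [hmult]
      exact hz z hz0⟩
  · obtain ⟨k, hk, hz⟩ := hsmall
    obtain ⟨A, hA⟩ := Pool.Agent.Helper61.DH.criterion hd hk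
      (⟨hdeg, fun z hz => hreg.2 z fun i => congrFun hz i⟩ : Pool.Agent.Helper26.RC.Reg ℂ d Φ)
      (fun z hz0 => by
        rw [← hmult]
        exact hz z hz0) α hI
    refine ⟨A, ?_⟩
    have h1 : returnSet Φ α I = {n | ∀ f ∈ I, eval (Pool.Agent.Helper26.RC.orb Φ α n) f = 0} := rfl
    rw [h1, hA]
    ext n
    simp only [Set.mem_iUnion, Set.mem_ofPred_eq, exists_prop]

end Pool.Agent.Results.MP_295d38_ag.CurvesOffFiniteSet
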