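import Mathlib
import Pool.Agent.Helper26.FV.Asm

set_option autoImplicit false

namespace Pool.Agent.Helper26.Keep.FullProportion

open MvPolynomial NumberField

/-- The primes `P` of the number field `K` with `N(P) ≡ 1` modulo `d` and `N(P)` prime to `2m`. -/
def Admissible {K : Type} [Field K] [NumberField K] (d m : ℕ) (P : Ideal (𝓞 K)) : Prop :=
  P.IsPrime ∧ Ideal.absNorm P ≡ 1 [MOD d] ∧ (Ideal.absNorm P).Coprime (2 * m)

/-- The families `F` of `(N + 1)`-tuples `Fⱼ` of forms of degree `d` in `N + 1` variables with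
integral coefficients, such that `|F - B * A| ≤ ε * B` and `F ≡ F₀` modulo `m`, coefficient by
coefficient. -/
def box {ι : Type} (N d m : ℕ) (A : ι → Fin (N + 1) → MvPolynomial (Fin (N + 1)) ℝ) (ε : ℝ)
    (F₀ : ι → Fin (N + 1) → MvPolynomial (Fin (N + 1)) ℤ) (B : ℕ) :
    Set (ι → Fin (N + 1) → MvPolynomial (Fin (N + 1)) ℤ) :=
  {F | ∀ j i, (F j i).IsHomogeneous d ∧
    ∀ s, |((coeff s (F j i) : ℤ) : ℝ) - B * coeff s (A j i)| ≤ ε * B ∧
      (m : ℤ) ∣ coeff s (F j i) - coeff s (F₀ j i)}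

/-- The forms `∑ⱼ eⱼ Fⱼᵢ`. -/
noncomputable def comb {ι : Type} [Fintype ι] {N : ℕ} (e : ι → ℂ)
    (F : ι → Fin (N + 1) → MvPolynomial (Fin (N + 1)) ℤ) (i : Fin (N + 1)) :
    MvPolynomial (Fin (N + 1)) ℂ :=
  ∑ j, C (e j) * map (Int.castRingHom ℂ) (F j i)

/-- The forms `Φᵢ` have no common zero in `ℂ ^ (N + 1)` except `0`, i.e. they define an endomorphism
of `ℙᴺ`. -/
def IsEndo {N : ℕ} (Φ : Fin (N + 1) → MvPolynomial (Fin (N + 1)) ℂ) : Prop :=
  ∀ z : Fin (N + 1) → ℂ, (∀ i, eval z (Φ i) = 0) → z = 0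

/-- The endomorphism of `ℙᴺ` given by the forms `Φᵢ`, in homogeneous coordinates. -/
noncomputable def endo {N : ℕ} (Φ : Fin (N + 1) → MvPolynomial (Fin (N + 1)) ℂ)
    (x : Fin (N + 1) → ℂ) : Fin (N + 1) → ℂ :=
  fun i => eval x (Φ i)

/-- The variables of `G` are the homogeneous coordinates of the points of `(ℙᴺ)ᵏ`, and all monomials
of `G` have the same degree in the `b`-th group of variables, for each `b`. -/
def IsMultihomogeneous {k N : ℕ} (G : MvPolynomial (Fin k × Fin (N + 1)) ℂ) : Prop :=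
  ∃ g : Fin k → ℕ, ∀ t ∈ G.support, ∀ b, ∑ i, t (b, i) = g b

/-- The return set `{n : (Φ₁ × ... × Φₖ)ⁿ(α) ∈ V}` for endomorphisms `Φ₁, ..., Φₖ` of `ℙᴺ`, the point
`α` of `(ℙᴺ)ᵏ` given by homogeneous coordinates, and the closed subset `V` of `(ℙᴺ)ᵏ` cut out by the
forms of the set `V`. -/
def returnSet {k N : ℕ} (Φ : Fin k → Fin (N + 1) → MvPolynomial (Fin (N + 1)) ℂ)
    (α : Fin k → Fin (N + 1) → ℂ) (V : Set (MvPolynomial (Fin k × Fin (N + 1)) ℂ)) : Set ℕ :=
  {n | ∀ G ∈ V, eval (fun c => (endo (Φ c.1))^[n] (α c.1) c.2) G = 0}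

/-- The coordinates of the point `α` lie in an extension `M` of degree at most `D` of a purely
transcendental extension `E` of the field `L`. -/
def DegreeLE {k N : ℕ} (L : Subfield ℂ) (D : ℕ) (α : Fin k → Fin (N + 1) → ℂ) : Prop :=
  ∃ (r : ℕ) (t : Fin r → ℂ) (E : Subfield ℂ) (M : IntermediateField E ℂ),
    AlgebraicIndependent L t ∧ E = Subfield.closure ((L : Set ℂ) ∪ Set.range t) ∧
      FiniteDimensional E M ∧ Module.finrank E M ≤ D ∧ ∀ b i, α b i ∈ M

/-- **The dynamical Mordell-Lang conjecture holds completely, and uniformly, for a positive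
proportion of the endomorphisms of projective space of any given degree `d ≥ 2` and in any
dimension `N`, over any number field `K`, and for the products of these endomorphisms.**
Let `e` be an integral basis of `K`. The families `F = (Fⱼ)` of tuples of integral forms give the
maps `Φ = ∑ⱼ eⱼ Fⱼ`. For every prime `P` of `K` with `N(P) ≡ 1` modulo `d` and `N(P)` odd there is a
set `𝒢 P` of families with the following properties. For every finite set `S` of such primes, prime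
to `m`, a proportion at least `1 - ∏ (1 - N(P) ^ (-D')) - η` of all families in every large box and
every residue class modulo `m` belongs to `𝒢 P` for some `P` in `S`, where `D'` is the number of
coefficients and `η > 0` is arbitrary. The families in `𝒢 P` consist of forms of degree `d` and
define endomorphisms of `ℙᴺ`, and for all `Φ₁, ..., Φₖ` given by families in `𝒢 P` (equal or not),
all points `α` and all closed subsets `V` of `(ℙᴺ)ᵏ` over `ℂ` the return set is a finite union of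
arithmetic progressions. If `α` has degree at most `D` over a purely transcendental extension of `K`
and `V` is cut out by forms of degree at most `δ`, the return set consists of at most `C P k D δ`
numbers and of progressions with difference `Q P k D` which start before `n₀ P k D + Q P k D`; these
constants do not depend on `Φ₁, ..., Φₖ`, on `α` and on `V`. -/
theorem result (N d : ℕ) (hd : 2 ≤ d) (K : Type) [Field K] [NumberField K] (σ : K →+* ℂ)
    {ι : Type} [Fintype ι] (e : Module.Basis ι ℤ (𝓞 K)) :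
    ∃ (𝒢 : Ideal (𝓞 K) → Set (ι → Fin (N + 1) → MvPolynomial (Fin (N + 1)) ℤ))
      (C : Ideal (𝓞 K) → ℕ → ℕ → ℕ → ℕ) (n₀ Q : Ideal (𝓞 K) → ℕ → ℕ → ℕ),
      (∀ m : ℕ, 1 ≤ m → ∀ S : Finset (Ideal (𝓞 K)), (∀ P ∈ S, Admissible d m P) →
        ∀ (A : ι → Fin (N + 1) → MvPolynomial (Fin (N + 1)) ℝ) (ε : ℝ)
          (F₀ : ι → Fin (N + 1) → MvPolynomial (Fin (N + 1)) ℤ),
          (∀ j i, (A j i).IsHomogeneous d) → 0 < ε → (∀ j i, (F₀ j i).IsHomogeneous d) →
        ∀ η : ℝ, 0 < η → ∃ B₀ : ℕ, ∀ B : ℕ, B₀ ≤ B → (box N d m A ε F₀ B).Finite ∧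
          (1 - ∏ P ∈ S, (1 - 1 / (Ideal.absNorm P : ℝ) ^ ((N + 1) * (N + d).choose d)) - η) *
            ((box N d m A ε F₀ B).ncard : ℝ) ≤
              ((box N d m A ε F₀ B ∩ {F | ∃ P ∈ S, F ∈ 𝒢 P}).ncard : ℝ)) ∧
      ∀ P : Ideal (𝓞 K), Admissible d 1 P → (∀ k D, 1 ≤ Q P k D) ∧
        (∀ F ∈ 𝒢 P, (∀ j i, (F j i).IsHomogeneous d) ∧ IsEndo (comb (fun j => σ (e j)) F)) ∧
        ∀ (k : ℕ) (F : Fin k → ι → Fin (N + 1) → MvPolynomial (Fin (N + 1)) ℤ),
          (∀ b, F b ∈ 𝒢 P) → ∀ α : Fin k → Fin (N + 1) → ℂ, (∀ b, α b ≠ 0) →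
          ∀ V : Set (MvPolynomial (Fin k × Fin (N + 1)) ℂ), (∀ G ∈ V, IsMultihomogeneous G) →
            (∃ T : Finset (ℕ × ℕ), returnSet (fun b => comb (fun j => σ (e j)) (F b)) α V =
              {n | ∃ q ∈ T, ∃ j, n = q.1 + q.2 * j}) ∧
            ∀ D δ : ℕ, DegreeLE σ.fieldRange D α → (∀ G ∈ V, G.totalDegree ≤ δ) →
              ∃ E T : Finset ℕ, E.card ≤ C P k D δ ∧ (∀ a ∈ T, a < n₀ P k D + Q P k D) ∧
                returnSet (fun b => comb (fun j => σ (e j)) (F b)) α V =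
                  {n | n ∈ E ∨ ∃ a ∈ T, ∃ j, n = a + Q P k D * j} := by
  obtain ⟨𝒢, C, W, Q, hbox, h⟩ := Pool.Agent.Helper26.FV.fv_main N d hd K σ e
  refine ⟨𝒢, C, W, Q, fun m hm S hS A ε F₀ hA hε hF₀ η hη =>
    hbox m hm S hS A ε F₀ hA hε hF₀ η hη, fun P hP => ?_⟩
  obtain ⟨hQ, hE, hfull, hunif⟩ := h P hP
  refine ⟨hQ, hE, fun k F hF α hα V hV => ⟨hfull k F hF α hα V hV, fun D δ hD hδ => ?_⟩⟩
  obtain ⟨r, t, E, M, ht, hEt, hMfin, hMD, hαM⟩ := hD
  exact hunif k D δ F hF E ⟨r, t, ht, hEt⟩ M hMfin hMD α hα hαM V hV hδ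

end Pool.Agent.Helper26.Keep.FullProportion
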