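import Mathlib
import Pool.Agent.Helper26.OB.Fin3

set_option autoImplicit false

namespace Pool.Agent.Helper26.Keep.OrbitLengths

open MvPolynomial

/-- The indices of the coefficients of `k` pairs `(Fₐ, Gₐ)` of polynomials in one variable, of
degree at most `d a`: the number `a`, `0` for `Fₐ` and `1` for `Gₐ`, and the exponent. -/
abbrev CoeffIndex {k : ℕ} (d : Fin k → ℕ) : Type := Σ a : Fin k, Fin 2 × Fin (d a + 1)

/-- The rational function `φₐ = Fₐ / Gₐ` in homogeneous coordinates: the vector `(x, y)` is mapped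
to `(Fₐ(x, y), Gₐ(x, y))`, the polynomials being homogenised to the degree `d a`. -/
def ratMap {k : ℕ} {d : Fin k → ℕ} (c : CoeffIndex d → ℂ) (a : Fin k) (x : Fin 2 → ℂ) :
    Fin 2 → ℂ :=
  fun i => ∑ j : Fin (d a + 1), c ⟨a, (i, j)⟩ * x 0 ^ (j : ℕ) * x 1 ^ (d a - j)

/-- The rational functions `φₐ` have degree `d a`: numerator and denominator have no common zero on
the projective line. -/
def HasDegree {k : ℕ} {d : Fin k → ℕ} (c : CoeffIndex d → ℂ) : Prop :=
  ∀ (a : Fin k) (x : Fin 2 → ℂ), ratMap c a x = 0 → x = 0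

/-- The endomorphism `x ↦ (φ₁(x_{π(1)}), ..., φₖ(x_{π(k)}))` of `(ℙ¹)ᵏ`, in homogeneous
coordinates. -/
def endo {k : ℕ} {d : Fin k → ℕ} (c : CoeffIndex d → ℂ) (π : Fin k → Fin k)
    (x : Fin k → Fin 2 → ℂ) : Fin k → Fin 2 → ℂ :=
  fun a => ratMap c a (x (π a))

/-- The variables of `G` are the homogeneous coordinates of the points of `(ℙ¹)ᵏ`, and all monomials
of `G` have the same degree in the `b`-th pair of variables, for each `b`. -/
def IsMultihomogeneous {k : ℕ} (G : MvPolynomial (Fin k × Fin 2) ℂ) : Prop :=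
  ∃ g : Fin k → ℕ, ∀ t ∈ G.support, ∀ b, ∑ i, t (b, i) = g b

/-- The return set `{n : Φⁿ(α) ∈ V}` of the endomorphism `Φ = endo c π`, the point `α` of `(ℙ¹)ᵏ`
given by homogeneous coordinates, and the closed subset `V` of `(ℙ¹)ᵏ` cut out by the forms in the
set `V`. -/
def returnSet {k : ℕ} {d : Fin k → ℕ} (c : CoeffIndex d → ℂ) (π : Fin k → Fin k)
    (α : Fin k → Fin 2 → ℂ) (V : Set (MvPolynomial (Fin k × Fin 2) ℂ)) : Set ℕ :=
  {n | ∀ G ∈ V, eval (fun q => (endo c π)^[n] α q.1 q.2) G = 0}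

/-- `a` and `b` lie in one cycle of the map `π`. -/
def InOneCycle {k : ℕ} (π : Fin k → Fin k) (a b : Fin k) : Prop :=
  (∃ m : ℕ, π^[m + 1] a = b) ∧ ∃ m : ℕ, π^[m] b = a

/-- The point `x` of the projective line is a critical point of `φₐ`: a zero of the homogenised
Wronskian `Fₐ' Gₐ - Fₐ Gₐ'`, a form of degree `2 d - 2`, `d = d a`. -/
def IsCritical {k : ℕ} {d : Fin k → ℕ} (c : CoeffIndex d → ℂ) (a : Fin k) (x : Fin 2 → ℂ) : Prop :=
  x ≠ 0 ∧ ∑ i : Fin (d a + 1), ∑ j : Fin (d a + 1), ((i : ℕ) - (j : ℕ) : ℂ) * c ⟨a, (0, i)⟩ *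
    c ⟨a, (1, j)⟩ * x 0 ^ ((i : ℕ) + j - 1) * x 1 ^ (2 * d a - 1 - i - j) = 0

/-- The length of the orbit of the point `x` of the projective line under the automorphism `σ` of
`ℂ`: the least `n ≥ 1` such that `σⁿ` fixes the point `x` (`0` if there is none). -/
noncomputable def orbitLength (σ : ℂ ≃+* ℂ) (x : Fin 2 → ℂ) : ℕ :=
  sInf {n | 1 ≤ n ∧ σ^[n] (x 0) * x 1 = x 0 * σ^[n] (x 1)}

/-- First condition: the coordinate `α b` is transcendental over `K` or, if `K` is a number field,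
of degree over `K` divisible by the prime number `ℓ`, for all `b` in a cycle of `π` which contains
the number `a` of a rational function of degree at least two; `ℓ ≥ k` is larger than `2 d a - 2` for
all `a`. (The coordinate of `∞` is read as `0` here, of degree one.) -/
def DegreeCondition {k : ℕ} (d : Fin k → ℕ) (π : Fin k → Fin k) (K : Subfield ℂ)
    (α : Fin k → Fin 2 → ℂ) : Prop :=
  ∃ ℓ : ℕ, ℓ.Prime ∧ (∀ a, 2 * d a - 2 < ℓ) ∧ k ≤ ℓ ∧
    ∀ b, (∃ a, InOneCycle π a b ∧ 2 ≤ d a) → Transcendental K (α b 0 / α b 1) ∨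
      NumberField K ∧ ℓ ∣ (minpoly K (α b 0 / α b 1)).natDegree

/-- Second condition, more general for number fields: `K` is a number field and there is an
automorphism `σ` of `ℂ` over `K` such that for `a` and `b` in one cycle of `π`, `α b` algebraic and
all critical points `x` of `φₐ` the quotient of the orbit lengths of `α b` and `x` is not an integer
all of whose prime factors are at most `max d`. -/
def OrbitCondition {k : ℕ} {d : Fin k → ℕ} (c : CoeffIndex d → ℂ) (π : Fin k → Fin k)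
    (K : Subfield ℂ) (α : Fin k → Fin 2 → ℂ) : Prop :=
  NumberField K ∧ ∃ σ : ℂ ≃+* ℂ, (∀ z ∈ K, σ z = z) ∧ ∀ a b, InOneCycle π a b →
    IsAlgebraic ℚ (α b 0 / α b 1) → ∀ x : Fin 2 → ℂ, IsCritical c a x →
      ∀ e : ℕ, (∀ r : ℕ, r.Prime → r ∣ e → ∃ a', r ≤ d a') →
        orbitLength σ (α b) ≠ e * orbitLength σ x

/-- **The dynamical Mordell-Lang conjecture for all surjective endomorphisms of `(ℙ¹)ᵏ`.**
Let `φ₁, ..., φₖ` be any rational functions over `ℂ` of degrees `d a ≥ 1`, `π` a self-map of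
`{1, ..., k}` and `Φ(x) = (φ₁(x_{π(1)}), ..., φₖ(x_{π(k)}))`, an endomorphism of `(ℙ¹)ᵏ` (all
surjective endomorphisms have this form). Let `K` be a subfield of `ℂ` which contains the
coefficients. Then for all closed subsets `V` of `(ℙ¹)ᵏ` over `ℂ` and all points `α` which satisfy
`DegreeCondition` or `OrbitCondition` the return set `{n : Φⁿ(α) ∈ V}` is a finite union of
arithmetic progressions. -/
theorem result {k : ℕ} (d : Fin k → ℕ) (hd : ∀ a, 1 ≤ d a) (c : CoeffIndex d → ℂ)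
    (hdeg : HasDegree c) (π : Fin k → Fin k) (K : Subfield ℂ) (hc : ∀ q, c q ∈ K)
    (α : Fin k → Fin 2 → ℂ) (hα : ∀ b, α b ≠ 0)
    (h : DegreeCondition d π K α ∨ OrbitCondition c π K α)
    (V : Set (MvPolynomial (Fin k × Fin 2) ℂ)) (hV : ∀ G ∈ V, IsMultihomogeneous G) :
    ∃ P : Finset (ℕ × ℕ), returnSet c π α V = {n | ∃ q ∈ P, ∃ j, n = q.1 + q.2 * j} := by
  refine Pool.Agent.Helper26.OB.form3 d hd c hdeg π K hc α hα ?_ V hV
  rcases h with h | ⟨hK, σ, hσ, h⟩
  · exact Or.inl h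
  · exact Or.inr ⟨hK, σ, hσ, fun a b hab halg x hx0 hx e he => h a b hab halg x ⟨hx0, hx⟩ e he⟩

end Pool.Agent.Helper26.Keep.OrbitLengths
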